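import Mathlib
import Pool.Agent.V11217.Game

/-!
A strategically k-Menger Urysohn space that is not k-Rothberger.
-/

namespace Pool.Agent.Results.MP_c24ba3_gt.MengerNotRothberger

open Set Filter Topology

/-- `𝒰` is a k-cover of `X`: a family of open sets such that every compact subset of `X` lies
in a member of `𝒰` (the whole space may be a member). -/
def IsKCover {X : Type*} [TopologicalSpace X] (𝒰 : Set (Set X)) : Prop :=
  (∀ U ∈ 𝒰, IsOpen U) ∧ ∀ K : Set X, IsCompact K → ∃ U ∈ 𝒰, K ⊆ U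

/-- k-Menger spaces -/
def KMenger (X : Type*) [TopologicalSpace X] : Prop :=
  ∀ 𝒰 : ℕ → Set (Set X), (∀ n, IsKCover (𝒰 n)) → ∃ ℱ : ℕ → Set (Set X),
    (∀ n, ℱ n ⊆ 𝒰 n ∧ (ℱ n).Finite) ∧ IsKCover (⋃ n, ℱ n)

/-- k-Rothberger spaces -/
def KRothberger (X : Type*) [TopologicalSpace X] : Prop :=
  ∀ 𝒰 : ℕ → Set (Set X), (∀ n, IsKCover (𝒰 n)) → ∃ U : ℕ → Set X,
    (∀ n, U n ∈ 𝒰 n) ∧ IsKCover (Set.range U)

/-- The first `n + 1` moves of a play `𝒰`. -/
def history {M : Type*} (𝒰 : ℕ → M) (n : ℕ) : List M := (List.range (n + 1)).map 𝒰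

/-- P2 has a winning strategy in the finite-selection game on k-covers. -/
def StrategicallyKMenger (X : Type*) [TopologicalSpace X] : Prop :=
  ∃ σ : List (Set (Set X)) → Set (Set X), ∀ 𝒰 : ℕ → Set (Set X), (∀ n, IsKCover (𝒰 n)) →
    (∀ n, σ (history 𝒰 n) ⊆ 𝒰 n ∧ (σ (history 𝒰 n)).Finite) ∧
      IsKCover (⋃ n, σ (history 𝒰 n))

/-- P2 has a winning strategy in the single-selection game on k-covers. -/
def StrategicallyKRothberger (X : Type*) [TopologicalSpace X] : Prop :=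
  ∃ σ : List (Set (Set X)) → Set X, ∀ 𝒰 : ℕ → Set (Set X), (∀ n, IsKCover (𝒰 n)) →
    (∀ n, σ (history 𝒰 n) ∈ 𝒰 n) ∧ IsKCover (Set.range (fun n => σ (history 𝒰 n)))

/-- The topology of sets that are open modulo countable sets. -/
@[reducible] def fine {X : Type} (t : TopologicalSpace X) : TopologicalSpace X where
  IsOpen U := ∀ x ∈ U, ∃ O, IsOpen[t] O ∧ x ∈ O ∧ (O \ U).Countable
  isOpen_univ := fun x _ => ⟨univ, @isOpen_univ _ t, trivial, by simp⟩
  isOpen_inter := by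
    intro s u hs hu x hx
    obtain ⟨O1, h1, h2, h3⟩ := hs x hx.1
    obtain ⟨O2, g1, g2, g3⟩ := hu x hx.2
    refine ⟨O1 ∩ O2, @IsOpen.inter _ t _ _ h1 g1, ⟨h2, g2⟩, (h3.union g3).mono ?_⟩
    rintro y ⟨⟨hy1, hy2⟩, hy3⟩
    by_cases hys : y ∈ s
    · right; exact ⟨hy2, fun hyu => hy3 ⟨hys, hyu⟩⟩
    · left; exact ⟨hy1, hys⟩
  isOpen_sUnion := by
    rintro 𝒮 h x ⟨s, hs, hxs⟩
    obtain ⟨O, h1, h2, h3⟩ := h s hs x hxs
    refine ⟨O, h1, h2, h3.mono ?_⟩
    rintro y ⟨hy1, hy2⟩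
    exact ⟨hy1, fun hys => hy2 ⟨s, hs, hys⟩⟩

variable {X : Type}

theorem fine_open_iff (t : TopologicalSpace X) (U : Set X) :
    IsOpen[fine t] U ↔ ∀ x ∈ U, ∃ O, IsOpen[t] O ∧ x ∈ O ∧ (O \ U).Countable := Iff.rfl

theorem fine_le (t : TopologicalSpace X) : fine t ≤ t := by
  intro U hU
  rw [fine_open_iff]
  intro x hx
  exact ⟨U, hU, hx, by simp⟩

theorem fine_cocountable (t : TopologicalSpace X) {C : Set X} (hC : C.Countable) :
    IsOpen[fine t] Cᶜ := by
  rw [fine_open_iff]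
  intro x hx
  refine ⟨univ, @isOpen_univ _ t, trivial, hC.mono ?_⟩
  rintro y ⟨_, hy⟩
  simpa using hy

theorem fine_compact_finite (t : TopologicalSpace X) {K : Set X} (hK : @IsCompact _ (fine t) K) :
    K.Finite := by
  by_contra hinf
  obtain ⟨g⟩ : Nonempty (ℕ ↪ K) := ⟨Set.Infinite.natEmbedding K hinf⟩
  let D : Set X := Set.range (fun m => (g m : X))
  have hDK : D ⊆ K := by rintro _ ⟨m, rfl⟩; exact (g m).2
  have hDinf : D.Infinite := Set.infinite_range_of_injective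
    (fun a b hab => g.injective (Subtype.ext hab))
  have hDc : D.Countable := countable_range _
  obtain ⟨s, hs⟩ := @IsCompact.elim_finite_subcover _ (fine t) _ ℕ hK
    (fun m => (D \ {(g m : X)})ᶜ) (fun m => fine_cocountable t (hDc.mono diff_subset)) (by
      intro x hx
      rw [mem_iUnion]
      by_cases hxD : x ∈ D
      · obtain ⟨m, hm⟩ := hxD
        exact ⟨m, fun h => h.2 hm.symm⟩
      · exact ⟨0, fun h => hxD h.1⟩)
  apply hDinf
  refine (s.finite_toSet.image (fun m => (g m : X))).subset ?_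
  intro x hx
  have := hs (hDK hx)
  simp only [mem_iUnion, exists_prop, mem_compl_iff, mem_diff, mem_singleton_iff] at this
  obtain ⟨m, hm, hne⟩ := this
  refine ⟨m, hm, ?_⟩
  by_contra hcon
  exact hne ⟨hx, fun h => hcon h.symm⟩

theorem fine_kcover_iff (t : TopologicalSpace X) (𝒰 : Set (Set X)) :
    @IsKCover _ (fine t) 𝒰 ↔ (∀ U ∈ 𝒰, IsOpen[fine t] U) ∧
      ∀ F : Set X, F.Finite → ∃ U ∈ 𝒰, F ⊆ U := by
  constructor
  · rintro ⟨h1, h2⟩
    exact ⟨h1, fun F hF => h2 F (@Set.Finite.isCompact _ (fine t) _ hF)⟩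
  · rintro ⟨h1, h2⟩
    exact ⟨h1, fun K hK => h2 K (fine_compact_finite t hK)⟩

theorem key (t : TopologicalSpace X) (hcomp : @CompactSpace X t) (x0 : X) (𝒰 : Set (Set X))
    (h𝒰 : @IsKCover _ (fine t) 𝒰) (G : Set X) (hG : G.Finite) (k : ℕ) :
    ∃ (ℱ : Set (Set X)) (c : ℕ → X), ℱ ⊆ 𝒰 ∧ ℱ.Finite ∧
      ∀ y : ℕ → X, ∃ U ∈ ℱ, G ⊆ U ∧ ∀ i < k, y i ∉ range c → y i ∈ U := by
  classical
  rw [fine_kcover_iff] at h𝒰
  obtain ⟨hop, hcov⟩ := h𝒰
  have h1 : ∀ x : Fin k → X, ∃ U ∈ 𝒰, G ∪ range x ⊆ U :=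
    fun x => hcov _ (hG.union (finite_range x))
  choose U hU hUx using h1
  have h2 : ∀ (x : Fin k → X) (i : Fin k), ∃ O, IsOpen[t] O ∧ x i ∈ O ∧ (O \ U x).Countable :=
    fun x i => (fine_open_iff t _).1 (hop _ (hU x)) (x i) (hUx x (Or.inr ⟨i, rfl⟩))
  choose O hO hxO hOc using h2
  have hbox : ∀ x : Fin k → X, IsOpen {y : Fin k → X | ∀ i, y i ∈ O x i} := by
    intro x
    have : {y : Fin k → X | ∀ i, y i ∈ O x i} = Set.univ.pi (O x) := by
      ext y; simp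
    rw [this]
    exact isOpen_set_pi Set.finite_univ (fun i _ => hO x i)
  obtain ⟨s, hs⟩ := isCompact_univ.elim_finite_subcover _ hbox
    (fun x _ => mem_iUnion.2 ⟨x, fun i => hxO x i⟩)
  have hCc : (insert x0 (⋃ x ∈ s, ⋃ i, (O x i \ U x))).Countable :=
    ((s.countable_toSet).biUnion (fun x _ => countable_iUnion (fun i => hOc x i))).insert x0
  obtain ⟨c, hc⟩ := hCc.exists_eq_range (insert_nonempty _ _)
  refine ⟨U '' (↑s : Set (Fin k → X)), c, ?_, s.finite_toSet.image _, ?_⟩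
  · rintro _ ⟨x, _, rfl⟩; exact hU x
  · intro y
    have hy := hs (mem_univ (fun i : Fin k => y i))
    simp only [mem_iUnion, exists_prop] at hy
    obtain ⟨x, hxs, hyx⟩ := hy
    refine ⟨U x, ⟨x, hxs, rfl⟩, subset_union_left.trans (hUx x), ?_⟩
    intro i hi hyc
    by_contra hcon
    apply hyc
    rw [← hc]
    right
    simp only [mem_iUnion]
    exact ⟨x, hxs, ⟨i, hi⟩, hyx ⟨i, hi⟩, hcon⟩

theorem strat (t : TopologicalSpace X) (hcomp : @CompactSpace X t) (x0 : X) :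
    @StrategicallyKMenger X (fine t) := by
  classical
  let G : List (ℕ → X) → Set X := fun st => ⋃ e ∈ st, (fun j => e j) '' {j | j < st.length}
  have hG : ∀ st, (G st).Finite := by
    intro st
    refine Set.Finite.biUnion (List.finite_toSet st) (fun e _ => ?_)
    exact (Set.finite_lt_nat _).image _
  have hex : ∀ (st : List (ℕ → X)) (𝒰 : Set (Set X)), ∃ (ℱ : Set (Set X)) (c : ℕ → X),
      @IsKCover _ (fine t) 𝒰 → ℱ ⊆ 𝒰 ∧ ℱ.Finite ∧
      ∀ y : ℕ → X, ∃ U ∈ ℱ, G st ⊆ U ∧ ∀ i < st.length, y i ∉ range c → y i ∈ U := by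
    intro st 𝒰
    by_cases h : @IsKCover _ (fine t) 𝒰
    · obtain ⟨ℱ, c, hh⟩ := key t hcomp x0 𝒰 h (G st) (hG st) st.length
      exact ⟨ℱ, c, fun _ => hh⟩
    · exact ⟨∅, fun _ => x0, fun h' => absurd h' h⟩
  choose ℱ c hFc using hex
  refine ⟨Pool.Agent.V11217.machine (fun st 𝒰 => c st 𝒰 :: st) [] ℱ, ?_⟩
  intro 𝒰 h𝒰
  let st : ℕ → List (ℕ → X) := Pool.Agent.V11217.runState (fun st 𝒰 => c st 𝒰 :: st) [] 𝒰
  have hst : ∀ n, st (n + 1) = c (st n) (𝒰 n) :: st n := fun n => rfl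
  have hσ : ∀ n, Pool.Agent.V11217.machine (fun st 𝒰 => c st 𝒰 :: st) [] ℱ (history 𝒰 n) =
      ℱ (st n) (𝒰 n) := fun n => Pool.Agent.V11217.machine_range _ _ _ _ _
  simp only [hσ]
  have hlen : ∀ n, (st n).length = n := by
    intro n
    induction n with
    | zero => rfl
    | succ n ih => rw [hst, List.length_cons, ih]
  have hmem : ∀ i n, i < n → c (st i) (𝒰 i) ∈ st n := by
    intro i n hin
    induction n with
    | zero => exact absurd hin (Nat.not_lt_zero _)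
    | succ n ih =>
      rw [hst]
      rcases Nat.lt_succ_iff_lt_or_eq.1 hin with h | h
      · exact List.mem_cons_of_mem _ (ih h)
      · subst h; exact List.mem_cons_self
  refine ⟨fun n => ⟨(hFc (st n) (𝒰 n) (h𝒰 n)).1, (hFc (st n) (𝒰 n) (h𝒰 n)).2.1⟩, ?_⟩
  rw [fine_kcover_iff]
  refine ⟨?_, ?_⟩
  · intro U hU
    obtain ⟨n, hn⟩ := mem_iUnion.1 hU
    exact (h𝒰 n).1 U ((hFc (st n) (𝒰 n) (h𝒰 n)).1 hn)
  · intro F hF
    obtain ⟨y, hy⟩ := (hF.countable.insert x0).exists_eq_range (insert_nonempty _ _)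
    -- for every point of `F` a bound
    have hb : ∀ x ∈ F, ∃ N, ∀ n, N ≤ n →
        (∃ j < n, y j = x) ∧ ((∃ i, x ∈ range (c (st i) (𝒰 i))) → x ∈ G (st n)) := by
      intro x hx
      have hxy : x ∈ range y := by rw [← hy]; exact mem_insert_of_mem _ hx
      obtain ⟨j, hj⟩ := hxy
      by_cases h : ∃ i, x ∈ range (c (st i) (𝒰 i))
      · obtain ⟨i, l, hl⟩ := h
        refine ⟨max (j + 1) (max (i + 1) (l + 1)), fun n hn => ⟨⟨j, ?_, hj⟩, fun _ => ?_⟩⟩
        · have := le_max_left (j + 1) (max (i + 1) (l + 1)); omega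
        · simp only [G, mem_iUnion]
          refine ⟨c (st i) (𝒰 i), hmem i n ?_, l, ?_, hl⟩
          · have h1 := le_max_right (j + 1) (max (i + 1) (l + 1))
            have h2 := le_max_left (i + 1) (l + 1)
            omega
          · have h1 := le_max_right (j + 1) (max (i + 1) (l + 1))
            have h2 := le_max_right (i + 1) (l + 1)
            change l < (st n).length
            rw [hlen]
            omega
      · exact ⟨j + 1, fun n hn => ⟨⟨j, by omega, hj⟩, fun h' => absurd h' h⟩⟩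
    choose! N hN using hb
    obtain ⟨M, hM⟩ := (hF.image N).bddAbove
    obtain ⟨U, hU, hGU, hyU⟩ := (hFc (st M) (𝒰 M) (h𝒰 M)).2.2 y
    refine ⟨U, mem_iUnion.2 ⟨M, hU⟩, ?_⟩
    intro x hx
    obtain ⟨⟨j, hj, hjx⟩, h2⟩ := hN x hx M (hM ⟨x, hx, rfl⟩)
    by_cases h : ∃ i, x ∈ range (c (st i) (𝒰 i))
    · exact hGU (h2 h)
    · rw [← hjx]
      apply hyU j (by rw [hlen]; exact hj)
      intro hcon
      exact h ⟨M, by rw [← hjx]; exact hcon⟩

theorem not_rothberger :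
    ¬ @KRothberger unitInterval (fine inferInstance) := by
  intro h
  obtain ⟨ε, hε, hsum⟩ := ENNReal.exists_pos_sum_of_countable' (ε := 1) one_ne_zero ℕ
  let 𝒰 : ℕ → Set (Set unitInterval) := fun n =>
    {U | IsOpen U ∧ MeasureTheory.volume U ≤ ε n}
  obtain ⟨U, hU, hcov⟩ := h 𝒰 (by
    intro n
    rw [fine_kcover_iff]
    refine ⟨fun U hU => fine_le _ U hU.1, ?_⟩
    intro F hF
    have h0 : MeasureTheory.volume F < ε n := by
      rw [hF.measure_zero]; exact hε n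
    obtain ⟨U, hFU, hUo, hUm⟩ := F.exists_isOpen_lt_of_lt _ h0
    exact ⟨U, ⟨hUo, hUm.le⟩, hFU⟩)
  have huniv : (univ : Set unitInterval) ⊆ ⋃ n, U n := by
    intro x _
    rw [fine_kcover_iff] at hcov
    obtain ⟨V, ⟨n, rfl⟩, hV⟩ := hcov.2 {x} (finite_singleton x)
    exact mem_iUnion.2 ⟨n, hV rfl⟩
  have h1 : MeasureTheory.volume (univ : Set unitInterval) ≤ ∑' n, ε n :=
    (MeasureTheory.measure_mono huniv).trans ((MeasureTheory.measure_iUnion_le U).trans
      (ENNReal.tsum_le_tsum (fun n => (hU n).2)))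
  rw [MeasureTheory.measure_univ] at h1
  exact absurd hsum (not_lt.2 h1)

theorem result : ∃ (X : Type) (_ : TopologicalSpace X), T25Space X ∧
    StrategicallyKMenger X ∧ KMenger X ∧ ¬ KRothberger X ∧ ¬ StrategicallyKRothberger X := by
  have hs : @StrategicallyKMenger unitInterval (fine inferInstance) :=
    strat inferInstance inferInstance 0
  refine ⟨unitInterval, fine inferInstance, ?_, hs, ?_, not_rothberger, ?_⟩
  · have hcont : @Continuous _ _ (fine inferInstance) inferInstance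
        (id : unitInterval → unitInterval) := continuous_id_iff_le.2 (fine_le _)
    exact @T25Space.of_injective_continuous _ _ (fine inferInstance) inferInstance inferInstance id
      Function.injective_id hcont
  · obtain ⟨σ, hσ⟩ := hs
    intro 𝒰 h𝒰
    exact ⟨fun n => σ (history 𝒰 n), (hσ 𝒰 h𝒰).1, (hσ 𝒰 h𝒰).2⟩
  · rintro ⟨σ, hσ⟩
    apply not_rothberger
    intro 𝒰 h𝒰
    exact ⟨fun n => σ (history 𝒰 n), (hσ 𝒰 h𝒰).1, (hσ 𝒰 h𝒰).2⟩

end Pool.Agent.Results.MP_c24ba3_gt.MengerNotRothberger
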